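import Pool.Agent.W373.CG.Upper

set_option autoImplicit false

/-!
# Conjugacy growth rate and growth rate differ
-/

namespace Pool.Agent.W373.CG

open Filter Topology
open scoped Pointwise

theorem tendsto_poly (C r : ℝ) (hC : 0 < C) (hr : 0 < r) (d : ℕ) :
    Tendsto (fun n : ℕ => (C * ((n : ℝ) + 1) ^ d * r ^ n) ^ ((1 : ℝ) / (n : ℝ))) atTop (𝓝 r) := by
  have h1 : Tendsto (fun n : ℕ => C ^ ((1 : ℝ) / (n : ℝ))) atTop (𝓝 1) := by
    have : Tendsto (fun n : ℕ => (1 : ℝ) / (n : ℝ)) atTop (𝓝 0) := tendsto_const_div_atTop_nhds_zero_nat 1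
    have h := (tendsto_const_nhds (x := C)).rpow this (Or.inl hC.ne')
    rwa [Real.rpow_zero] at h
  have h2 : Tendsto (fun n : ℕ => ((n : ℝ) + 1) ^ ((1 : ℝ) / (n : ℝ))) atTop (𝓝 1) := by
    have h := (tendsto_rpow_div_mul_add 1 1 (-1) (by norm_num)).comp
      (tendsto_atTop_add_const_right atTop (1 : ℝ) (tendsto_natCast_atTop_atTop (R := ℝ)))
    refine h.congr' ?_
    filter_upwards with n
    simp only [Function.comp]
    congr 2
    ring
  have h3 : Tendsto (fun n : ℕ => (((n : ℝ) + 1) ^ ((1 : ℝ) / (n : ℝ))) ^ d) atTop (𝓝 1) := by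
    have := h2.pow d
    rwa [one_pow] at this
  have h4 := (h1.mul h3).mul_const r
  rw [one_mul, one_mul] at h4
  refine h4.congr' ?_
  filter_upwards [eventually_ge_atTop 1] with n hn
  have hn0 : (0 : ℝ) < n := by exact_mod_cast hn
  have hn1 : (0 : ℝ) < (n : ℝ) + 1 := by linarith
  rw [Real.mul_rpow (by positivity) (by positivity), Real.mul_rpow hC.le (by positivity)]
  congr 1
  · congr 1
    rw [← Real.rpow_natCast, ← Real.rpow_natCast, ← Real.rpow_mul hn1.le, ← Real.rpow_mul hn1.le]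
    congr 1
    ring
  · rw [← Real.rpow_natCast, ← Real.rpow_mul hr.le]
    rw [mul_one_div_cancel hn0.ne', Real.rpow_one]

theorem limsup_le_of_poly {f : ℕ → ℕ} (C r : ℝ) (hC : 0 < C) (hr : 0 < r) (d : ℕ)
    (h : ∀ n, (f n : ℝ) ≤ C * ((n : ℝ) + 1) ^ d * r ^ n) :
    limsup (fun n : ℕ => (f n : ℝ) ^ ((1 : ℝ) / (n : ℝ))) atTop ≤ r := by
  rw [← (tendsto_poly C r hC hr d).limsup_eq]
  apply limsup_le_limsup
  · filter_upwards with n
    exact Real.rpow_le_rpow (by positivity) (h n) (by positivity)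
  · exact IsBoundedUnder.isCoboundedUnder_le ⟨0, by
      simp only [eventually_map]
      filter_upwards with n
      positivity⟩
  · exact (tendsto_poly C r hC hr d).isBoundedUnder_le

theorem bdd_of_poly {f : ℕ → ℕ} (C r : ℝ) (hC : 0 < C) (hr : 0 < r) (d : ℕ)
    (h : ∀ n, (f n : ℝ) ≤ C * ((n : ℝ) + 1) ^ d * r ^ n) :
    IsBoundedUnder (· ≤ ·) atTop (fun n : ℕ => (f n : ℝ) ^ ((1 : ℝ) / (n : ℝ))) := by
  apply IsBoundedUnder.mono_le (tendsto_poly C r hC hr d).isBoundedUnder_le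
  filter_upwards with n
  exact Real.rpow_le_rpow (by positivity) (h n) (by positivity)

theorem limsup_classes_le :
    limsup (fun n : ℕ => ((ConjClasses.mk '' (B n)).ncard : ℝ) ^ ((1 : ℝ) / (n : ℝ))) atTop ≤ 8 := by
  apply limsup_le_of_poly (f := fun n => (ConjClasses.mk '' (B n)).ncard) 200 8 (by norm_num) (by norm_num) 5
  exact card_classes

theorem le_limsup_ball :
    16 ≤ limsup (fun n : ℕ => ((B n).ncard : ℝ) ^ ((1 : ℝ) / (n : ℝ))) atTop := by
  have hcard : 0 < ({1} ∪ S ∪ S⁻¹ : Set Γ).ncard := by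
    rw [Set.ncard_pos (((Set.finite_singleton _).union S_finite).union S_finite.inv)]
    exact ⟨1, Or.inl (Or.inl rfl)⟩
  have hb : IsBoundedUnder (· ≤ ·) atTop (fun n : ℕ => ((B n).ncard : ℝ) ^ ((1 : ℝ) / (n : ℝ))) := by
    apply bdd_of_poly (f := fun n => (B n).ncard) 1 ((({1} ∪ S ∪ S⁻¹ : Set Γ).ncard : ℝ)) one_pos
      (by exact_mod_cast hcard) 0
    intro n
    rw [pow_zero, one_mul, one_mul]
    exact_mod_cast card_B_le n
  apply le_limsup_of_frequently_le _ hb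
  apply Eventually.frequently
  filter_upwards [eventually_ge_atTop 1] with n hn
  have hn0 : (0 : ℝ) < n := by exact_mod_cast hn
  calc (16 : ℝ) = ((16 : ℝ) ^ n) ^ ((1 : ℝ) / (n : ℝ)) := by
        rw [← Real.rpow_natCast, ← Real.rpow_mul (by norm_num), mul_one_div_cancel hn0.ne', Real.rpow_one]
    _ ≤ _ := by
        apply Real.rpow_le_rpow (by positivity) _ (by positivity)
        exact_mod_cast card_B_ge n

theorem main : ∃ (G : Type) (_ : Group G),
    (∃ (k : ℕ) (R : Set (FreeGroup (Fin k))), R.Finite ∧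
        ∃ φ : FreeGroup (Fin k) →* G, Function.Surjective φ ∧
          φ.ker = Subgroup.normalClosure R) ∧
    ∃ S : Set G, S.Finite ∧ Subgroup.closure S = ⊤ ∧
      limsup (fun n : ℕ => ((ConjClasses.mk '' (({1} ∪ S ∪ S⁻¹ : Set G) ^ n)).ncard : ℝ) ^ ((1 : ℝ) / n)) atTop
        ≤ 8 ∧
      16 ≤ limsup (fun n : ℕ => ((({1} ∪ S ∪ S⁻¹ : Set G) ^ n).ncard : ℝ) ^ ((1 : ℝ) / n)) atTop := by
  refine ⟨Γ, inferInstance, ⟨4, R, R_finite, PresentedGroup.mk R, PresentedGroup.mk_surjective R, ?_⟩,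
    S, S_finite, closure_S, limsup_classes_le, le_limsup_ball⟩
  ext x
  rw [MonoidHom.mem_ker, PresentedGroup.mk_eq_one_iff]

end Pool.Agent.W373.CG
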