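import Pool.Agent.W373.CG.Cls

set_option autoImplicit false

/-!
# Balls
-/

namespace Pool.Agent.W373.CG

open scoped Pointwise

/-- the integers inside the rationals -/
def Zr : Subring ℚ := (Int.castRingHom ℚ).range

theorem int_mem (z : ℤ) : (z : ℚ) ∈ Zr := ⟨z, rfl⟩

theorem zpow_mem' {e : ℤ} (he : 0 ≤ e) : (4 : ℚ) ^ e ∈ Zr := by
  obtain ⟨n, rfl⟩ := Int.eq_ofNat_of_zero_le he
  rw [zpow_natCast]
  exact ⟨4 ^ n, by simp⟩

/-- the bound for elements of the ball of radius `n` -/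
def Q (n : ℕ) (m : M) : Prop :=
  ∃ u v : ℕ, (4 : ℚ) ^ u * m.x ∈ Zr ∧ (4 : ℚ) ^ u * m.y ∈ Zr ∧ |m.k| ≤ n ∧ |m.j| ≤ n ∧ -(u : ℤ) ≤ m.j ∧
    m.j ≤ v ∧ 2 * (u : ℤ) + 2 * v ≤ n + |m.j| ∧ |m.x| ≤ 3 * n * (n + 1) * 4 ^ v ∧ |m.y| ≤ 3 * n * 4 ^ v

theorem Q_zero : Q 0 1 := ⟨0, 0, by simp, by simp, by simp, by simp, by simp, by simp, by simp, by simp, by simp⟩

theorem Q_mono {n : ℕ} {m : M} (h : Q n m) : Q (n + 1) m := by
  obtain ⟨u, v, h1, h2, h3, h4, h5, h6, h7, h8, h9⟩ := h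
  refine ⟨u, v, h1, h2, ?_, ?_, h5, h6, ?_, ?_, ?_⟩
  · push_cast; linarith
  · push_cast; linarith
  · push_cast; linarith
  · refine h8.trans ?_
    have h10 : (0 : ℚ) ≤ 4 ^ v := by positivity
    apply mul_le_mul_of_nonneg_right _ h10
    push_cast
    nlinarith [(Nat.cast_nonneg n : (0 : ℚ) ≤ n)]
  · refine h9.trans ?_
    have h10 : (0 : ℚ) ≤ 4 ^ v := by positivity
    apply mul_le_mul_of_nonneg_right _ h10
    push_cast
    linarith

theorem Q_c {n : ℕ} {m : M} (h : Q n m) (e : ℤ) (he : |e| ≤ 1) : Q (n + 1) (m * ⟨0, 0, e, 0⟩) := by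
  obtain ⟨u, v, h1, h2, h3, h4, h5, h6, h7, h8, h9⟩ := Q_mono h
  have hx : (m * ⟨0, 0, e, 0⟩ : M).x = m.x := by simp
  have hy : (m * ⟨0, 0, e, 0⟩ : M).y = m.y := by simp
  have hj : (m * ⟨0, 0, e, 0⟩ : M).j = m.j := by simp
  have hk : (m * ⟨0, 0, e, 0⟩ : M).k = m.k + e := by simp
  refine ⟨u, v, by rwa [hx], by rwa [hy], ?_, by rwa [hj], by rwa [hj], by rwa [hj], by rwa [hj],
    by rwa [hx], by rwa [hy]⟩
  rw [hk]
  obtain ⟨_, _, _, _, h3', _⟩ := h
  push_cast
  exact (abs_add_le _ _).trans (by linarith)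

/-- adding an element of level `w` -/
theorem Q_step {n : ℕ} {m : M} (h : Q n m) (s : M) (hsk : s.k = 0) (r e : ℤ)
    (hr : r = m.j ∨ r = m.j - 1) (hsj : m.j + s.j = if r = m.j then m.j + 1 else m.j - 1)
    (he : e = r) (p q : ℤ) (hp : |p| ≤ 3) (hq : |q| ≤ 3)
    (hsx : (4 : ℚ) ^ m.j * s.x = 4 ^ e * p) (hsy : (4 : ℚ) ^ m.j * s.y = 4 ^ e * q) :
    Q (n + 1) (m * s) := by
  subst he
  obtain ⟨u, v, h1, h2, h3, h4, h5, h6, h7, h8, h9⟩ := h
  have hx : (m * s).x = m.x + (4 : ℚ) ^ e * (p + m.k * q) := by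
    simp only [M.mul_x, mul_add, hsx]
    rw [mul_left_comm, hsy]; ring
  have hy : (m * s).y = m.y + (4 : ℚ) ^ e * q := by simp only [M.mul_y, hsy]
  have hk : (m * s).k = m.k := by simp [hsk]
  have hj : (m * s).j = if e = m.j then m.j + 1 else m.j - 1 := by simp only [M.mul_j]; exact hsj
  -- choose the new range
  obtain ⟨u', v', hu, hv, hue, hve, hju, hjv, hsum⟩ : ∃ u' v' : ℕ, u ≤ u' ∧ v ≤ v' ∧ -(u' : ℤ) ≤ e ∧ e ≤ v' ∧
      -(u' : ℤ) ≤ (m * s).j ∧ (m * s).j ≤ v' ∧ 2 * (u' : ℤ) + 2 * v' ≤ n + 1 + |(m * s).j| := by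
    rw [hj]
    rcases hr with hr | hr
    · rw [if_pos hr]
      by_cases hv : m.j + 1 ≤ v
      · refine ⟨u, v, le_rfl, le_rfl, by omega, by omega, by omega, by omega, ?_⟩
        have : |m.j| ≤ |m.j + 1| + 1 := by
          have := abs_sub_abs_le_abs_sub m.j (m.j + 1)
          have h10 : |m.j - (m.j + 1)| = 1 := by rw [show m.j - (m.j + 1) = -1 by ring]; simp
          linarith
        linarith
      · have hjv : m.j = v := by omega
        refine ⟨u, v + 1, le_rfl, by omega, by omega, by omega, by omega, by omega, ?_⟩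
        rw [hjv] at h7 ⊢
        rw [abs_of_nonneg (by positivity)] at h7 ⊢
        push_cast
        linarith
    · have hne : ¬ e = m.j := by omega
      rw [if_neg hne]
      by_cases hu : -(u : ℤ) ≤ m.j - 1
      · refine ⟨u, v, le_rfl, le_rfl, by omega, by omega, by omega, by omega, ?_⟩
        have : |m.j| ≤ |m.j - 1| + 1 := by
          have := abs_sub_abs_le_abs_sub m.j (m.j - 1)
          have h10 : |m.j - (m.j - 1)| = 1 := by rw [show m.j - (m.j - 1) = 1 by ring]; simp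
          linarith
        linarith
      · have hju : m.j = -(u : ℤ) := by omega
        refine ⟨u + 1, v, by omega, le_rfl, by push_cast; omega, by omega, by push_cast; omega, by omega, ?_⟩
        rw [hju] at h7 ⊢
        rw [show -(u : ℤ) - 1 = -(u + 1 : ℤ) by ring]
        rw [abs_neg, abs_of_nonneg (by positivity)] at h7 ⊢
        push_cast
        linarith
  have hmulint : ∀ z : ℚ, (4 : ℚ) ^ u * z ∈ Zr → (4 : ℚ) ^ u' * z ∈ Zr := by
    intro z hz
    obtain ⟨w, rfl⟩ := Nat.exists_eq_add_of_le hu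
    rw [pow_add, mul_comm ((4 : ℚ) ^ u), mul_assoc]
    refine Zr.mul_mem ?_ hz
    exact ⟨4 ^ w, by simp⟩
  have h4e : (4 : ℚ) ^ u' * 4 ^ e ∈ Zr := by
    rw [← zpow_natCast, ← zpow_add₀ (by norm_num)]
    exact zpow_mem' (by omega)
  have hkn : |(m.k : ℚ)| ≤ n := by exact_mod_cast h3
  have hp' : |(p : ℚ)| ≤ 3 := by exact_mod_cast hp
  have hq' : |(q : ℚ)| ≤ 3 := by exact_mod_cast hq
  have hn0 : (0 : ℚ) ≤ n := Nat.cast_nonneg n
  have h4v : (4 : ℚ) ^ v ≤ 4 ^ v' := pow_le_pow_right₀ (by norm_num) hv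
  have h4e' : (4 : ℚ) ^ e ≤ 4 ^ v' := by
    rw [← zpow_natCast]; exact zpow_le_zpow_right₀ (by norm_num) hve
  have h4e0 : (0 : ℚ) < 4 ^ e := by positivity
  have h4v0 : (0 : ℚ) < 4 ^ v' := by positivity
  refine ⟨u', v', ?_, ?_, ?_, ?_, hju, hjv, by push_cast; exact hsum, ?_, ?_⟩
  · rw [hx, mul_add, ← mul_assoc]
    refine Zr.add_mem (hmulint _ h1) (Zr.mul_mem h4e ?_)
    exact Zr.add_mem (int_mem _) (Zr.mul_mem (int_mem _) (int_mem _))
  · rw [hy, mul_add, ← mul_assoc]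
    exact Zr.add_mem (hmulint _ h2) (Zr.mul_mem h4e (int_mem _))
  · rw [hk]; push_cast; linarith
  · rw [hj]
    push_cast
    split_ifs
    · exact (abs_add_le _ _).trans (by rw [abs_one]; linarith)
    · exact (abs_sub _ _).trans (by rw [abs_one]; linarith)
  · rw [hx]
    refine (abs_add_le _ _).trans ?_
    have hb : |(4 : ℚ) ^ e * (p + m.k * q)| ≤ 4 ^ v' * (3 + 3 * n) := by
      rw [abs_mul, abs_of_pos h4e0]
      apply mul_le_mul h4e' _ (abs_nonneg _) h4v0.le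
      refine (abs_add_le _ _).trans ?_
      rw [abs_mul]
      nlinarith [abs_nonneg (m.k : ℚ), abs_nonneg (q : ℚ)]
    have ha : |m.x| ≤ 3 * n * (n + 1) * 4 ^ v' := h8.trans (mul_le_mul_of_nonneg_left h4v (by positivity))
    push_cast
    nlinarith
  · rw [hy]
    refine (abs_add_le _ _).trans ?_
    have hb : |(4 : ℚ) ^ e * (q : ℚ)| ≤ 4 ^ v' * 3 := by
      rw [abs_mul, abs_of_pos h4e0]
      exact mul_le_mul h4e' hq' (abs_nonneg _) h4v0.le
    have ha : |m.y| ≤ 3 * n * 4 ^ v' := h9.trans (mul_le_mul_of_nonneg_left h4v (by positivity))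
    push_cast
    nlinarith

/-- digits -/
def dig (p : Fin 4 × Fin 4) : Γ := ga ^ (p.1 : ℕ) * gb ^ (p.2 : ℕ) * gt

/-- the generating set -/
def S : Set Γ := Set.range dig ∪ {gc}

theorem S_finite : S.Finite := (Set.finite_range _).union (Set.finite_singleton _)

theorem ψ_dig (p : Fin 4 × Fin 4) : ψ (dig p) = ⟨(p.1 : ℕ), (p.2 : ℕ), 0, 1⟩ := by
  unfold dig
  rw [map_mul, map_mul, map_pow, map_pow, ψ_a, ψ_b, ψ_t, ← zpow_natCast, ← zpow_natCast, M.a_zpow, M.b_zpow]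
  ext <;> simp [M.t]

theorem closure_S : Subgroup.closure S = ⊤ := by
  rw [eq_top_iff, ← PresentedGroup.closure_range_of R, Subgroup.closure_le]
  have hd : ∀ p, dig p ∈ Subgroup.closure S := fun p => Subgroup.subset_closure (Or.inl ⟨p, rfl⟩)
  have ht : gt ∈ Subgroup.closure S := by
    have := hd (0, 0); simpa [dig] using this
  have ha : ga ∈ Subgroup.closure S := by
    have := (Subgroup.closure S).mul_mem (hd (1, 0)) ((Subgroup.closure S).inv_mem ht)
    simpa [dig] using this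
  have hb : gb ∈ Subgroup.closure S := by
    have := (Subgroup.closure S).mul_mem (hd (0, 1)) ((Subgroup.closure S).inv_mem ht)
    simpa [dig] using this
  have hc : gc ∈ Subgroup.closure S := Subgroup.subset_closure (Or.inr rfl)
  rintro _ ⟨i, rfl⟩
  fin_cases i
  · exact ha
  · exact hb
  · exact hc
  · exact ht

/-- the ball -/
def B (n : ℕ) : Set Γ := ({1} ∪ S ∪ S⁻¹ : Set Γ) ^ n

theorem Q_of_mem {n : ℕ} {g : Γ} (hg : g ∈ B n) : Q n (ψ g) := by
  induction n generalizing g with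
  | zero =>
    simp only [B, pow_zero, Set.mem_one] at hg
    rw [hg, map_one]; exact Q_zero
  | succ n ih =>
    simp only [B, pow_succ] at hg
    obtain ⟨h, hh, s, hs, rfl⟩ := Set.mem_mul.1 hg
    have hQ := ih hh
    rw [map_mul]
    rcases hs with (hs | hs) | hs
    · rw [Set.mem_singleton_iff] at hs
      rw [hs, map_one, mul_one]; exact Q_mono hQ
    · rcases hs with ⟨p, rfl⟩ | hs
      · rw [ψ_dig]
        refine Q_step hQ _ rfl (ψ h).j (ψ h).j (Or.inl rfl) (by simp) rfl (p.1 : ℕ) (p.2 : ℕ) ?_ ?_ ?_ ?_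
        · rw [abs_of_nonneg (by positivity)]; have := p.1.2; omega
        · rw [abs_of_nonneg (by positivity)]; have := p.2.2; omega
        · push_cast; rfl
        · push_cast; rfl
      · rw [Set.mem_singleton_iff] at hs
        rw [hs, ψ_c]
        exact Q_c hQ 1 (by simp)
    · rw [Set.mem_inv] at hs
      rcases hs with ⟨p, hp⟩ | hs
      · have hs' : s = (dig p)⁻¹ := by rw [hp, inv_inv]
        rw [hs', map_inv, ψ_dig]
        refine Q_step hQ _ (by simp) ((ψ h).j - 1) ((ψ h).j - 1) (Or.inr rfl) ?_ rfl (-(p.1 : ℕ)) (-(p.2 : ℕ)) ?_ ?_ ?_ ?_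
        · rw [if_neg (by omega)]; simp; ring
        · rw [abs_neg, abs_of_nonneg (by positivity)]; have := p.1.2; omega
        · rw [abs_neg, abs_of_nonneg (by positivity)]; have := p.2.2; omega
        · rw [zpow_sub₀ (by norm_num)]; simp; ring
        · rw [zpow_sub₀ (by norm_num)]; simp; ring
      · rw [Set.mem_singleton_iff] at hs
        have hs' : s = gc⁻¹ := by rw [← hs, inv_inv]
        have hc : (M.c)⁻¹ = ⟨0, 0, -1, 0⟩ := by ext <;> simp [M.c]
        rw [hs', map_inv, ψ_c, hc]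
        exact Q_c hQ (-1) (by simp)

theorem B_finite (n : ℕ) : (B n).Finite := by
  have h : ({1} ∪ S ∪ S⁻¹ : Set Γ).Finite := ((Set.finite_singleton _).union S_finite).union S_finite.inv
  induction n with
  | zero => rw [B, pow_zero, ← Set.singleton_one]; exact Set.finite_singleton _
  | succ n ih => rw [B, pow_succ]; exact ih.mul h

/-- large elements -/
theorem exists_mem_B (n : ℕ) : ∀ X Y : ℕ, X < 4 ^ n → Y < 4 ^ n → ∃ g ∈ B n, ψ g = ⟨X, Y, 0, n⟩ := by
  induction n with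
  | zero =>
    intro X Y hX hY
    have hX0 : X = 0 := by simpa using hX
    have hY0 : Y = 0 := by simpa using hY
    subst hX0 hY0
    refine ⟨1, ?_, ?_⟩
    · simp [B]
    · rw [map_one]; ext <;> simp
  | succ n ih =>
    intro X Y hX hY
    have h4 : 0 < 4 ^ n := by positivity
    have hXd : X / 4 ^ n < 4 := by rw [Nat.div_lt_iff_lt_mul h4]; rw [pow_succ] at hX; linarith
    have hYd : Y / 4 ^ n < 4 := by rw [Nat.div_lt_iff_lt_mul h4]; rw [pow_succ] at hY; linarith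
    obtain ⟨g, hg, hψ⟩ := ih (X % 4 ^ n) (Y % 4 ^ n) (Nat.mod_lt _ h4) (Nat.mod_lt _ h4)
    refine ⟨g * dig (⟨X / 4 ^ n, hXd⟩, ⟨Y / 4 ^ n, hYd⟩), ?_, ?_⟩
    · rw [B, pow_succ]
      exact Set.mul_mem_mul hg (Or.inl (Or.inr (Or.inl ⟨_, rfl⟩)))
    · rw [map_mul, hψ, ψ_dig]
      have e1 : ((X % 4 ^ n : ℕ) : ℚ) + 4 ^ n * ((X / 4 ^ n : ℕ) : ℚ) = X := by exact_mod_cast Nat.mod_add_div X (4 ^ n)
      have e2 : ((Y % 4 ^ n : ℕ) : ℚ) + 4 ^ n * ((Y / 4 ^ n : ℕ) : ℚ) = Y := by exact_mod_cast Nat.mod_add_div Y (4 ^ n)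
      ext
      · simp only [M.mul_x, Int.cast_zero, zero_mul, add_zero, zpow_natCast]; exact e1
      · simp only [M.mul_y, zpow_natCast]; exact e2
      · simp
      · simp

theorem card_B_ge (n : ℕ) : 16 ^ n ≤ (B n).ncard := by
  classical
  choose! g hg hψ using exists_mem_B n
  have h : ((Finset.range (4 ^ n) ×ˢ Finset.range (4 ^ n)).image (fun p : ℕ × ℕ => g p.1 p.2)).card = 16 ^ n := by
    rw [Finset.card_image_of_injOn, Finset.card_product, Finset.card_range, ← mul_pow]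
    · norm_num
    intro p hp q hq hpq
    simp only [Finset.coe_product, Finset.coe_range, Set.mem_prod, Set.mem_Iio] at hp hq
    have h1 := hψ p.1 p.2 hp.1 hp.2
    have h2 := hψ q.1 q.2 hq.1 hq.2
    dsimp only at hpq
    rw [hpq, h2] at h1
    have hx := congrArg M.x h1
    have hy := congrArg M.y h1
    simp at hx hy
    exact Prod.ext hx.symm hy.symm
  rw [← h, ← Set.ncard_coe_finset]
  apply Set.ncard_le_ncard _ (B_finite n)
  intro x hx
  simp only [Finset.coe_image, Set.mem_image, Finset.mem_coe, Finset.mem_product, Finset.mem_range] at hx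
  obtain ⟨p, hp, rfl⟩ := hx
  exact hg p.1 p.2 hp.1 hp.2

theorem card_B_le (n : ℕ) : (B n).ncard ≤ (({1} ∪ S ∪ S⁻¹ : Set Γ).ncard) ^ n := by
  induction n with
  | zero => rw [B, pow_zero, pow_zero, ← Set.singleton_one, Set.ncard_singleton]
  | succ n ih =>
    rw [B, pow_succ, pow_succ]
    refine le_trans ?_ (Nat.mul_le_mul_right _ ih)
    exact Set.natCard_mul_le

end Pool.Agent.W373.CG
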