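import Mathlib

set_option autoImplicit false

/-!
# Elementary counting
-/

namespace Pool.Agent.W373.CG

open Finset

/-- the number of divisors of `N < M ^ 2` is at most `2 M` -/
theorem card_divisors_le {N m : ℕ} (h : N < m * m) : (Nat.divisors N).card ≤ 2 * m := by
  have hsub : Nat.divisors N ⊆ range m ∪ (range m).image (fun e => N / e) := by
    intro d hd
    rw [Nat.mem_divisors] at hd
    obtain ⟨⟨e, he⟩, hN⟩ := hd
    rw [mem_union, mem_range, mem_image]
    by_cases hdm : d < m
    · exact Or.inl hdm
    · right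
      refine ⟨e, ?_, ?_⟩
      · rw [mem_range]
        by_contra hem
        push Not at hdm hem
        have := Nat.mul_le_mul hdm hem
        omega
      · have he0 : 0 < e := by
          rcases Nat.eq_zero_or_pos e with h0 | h0
          · subst h0; simp at he; exact absurd he hN
          · exact h0
        rw [he]
        exact Nat.mul_div_cancel d he0
  calc (Nat.divisors N).card ≤ (range m ∪ (range m).image (fun e => N / e)).card := card_le_card hsub
    _ ≤ (range m).card + ((range m).image (fun e => N / e)).card := card_union_le _ _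
    _ ≤ m + m := by
        apply Nat.add_le_add
        · rw [card_range]
        · exact card_image_le.trans (by rw [card_range])
    _ = 2 * m := by ring

/-- the gcd sum -/
theorem sum_gcd_le (N : ℕ) (hN : 0 < N) : ∑ y ∈ range N, Nat.gcd y N ≤ N * (Nat.divisors N).card := by
  have h1 : ∑ y ∈ range N, Nat.gcd y N
      = ∑ d ∈ Nat.divisors N, ∑ y ∈ (range N).filter (fun y => Nat.gcd y N = d), Nat.gcd y N := by
    rw [sum_fiberwise_of_maps_to]
    intro y _
    exact Nat.mem_divisors.2 ⟨Nat.gcd_dvd_right y N, hN.ne'⟩
  rw [h1]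
  calc ∑ d ∈ Nat.divisors N, ∑ y ∈ (range N).filter (fun y => Nat.gcd y N = d), Nat.gcd y N
      ≤ ∑ d ∈ Nat.divisors N, N := by
        apply sum_le_sum
        intro d hd
        have hdN := (Nat.mem_divisors.1 hd).1
        have hd0 : 0 < d := Nat.pos_of_dvd_of_pos hdN hN
        have h2 : ∑ y ∈ (range N).filter (fun y => Nat.gcd y N = d), Nat.gcd y N
            = ((range N).filter (fun y => Nat.gcd y N = d)).card * d := by
          rw [sum_congr rfl (g := fun _ => d) (by intro y hy; exact (mem_filter.1 hy).2), sum_const,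
            smul_eq_mul]
        rw [h2]
        have h3 : ((range N).filter (fun y => Nat.gcd y N = d)).card ≤ N / d := by
          have h4 : ((range N).filter (fun y => Nat.gcd y N = d)) ⊆ (range (N / d)).image (fun i => d * i) := by
            intro y hy
            rw [mem_filter, mem_range] at hy
            obtain ⟨hy1, hy2⟩ := hy
            obtain ⟨i, hi⟩ : d ∣ y := hy2 ▸ Nat.gcd_dvd_left y N
            rw [mem_image]
            refine ⟨i, ?_, hi.symm⟩
            rw [mem_range, Nat.lt_div_iff_mul_lt' hdN]
            rw [← hi]; exact hy1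
          exact (card_le_card h4).trans (card_image_le.trans (by rw [card_range]))
        calc _ ≤ N / d * d := Nat.mul_le_mul_right d h3
          _ ≤ N := Nat.div_mul_le_self N d
    _ = N * (Nat.divisors N).card := by rw [sum_const, smul_eq_mul, mul_comm]

/-- the gcd sum for `N = 4 ^ j - 1` -/
theorem sum_gcd_four (j : ℕ) (hj : 0 < j) : ∑ y ∈ range (4 ^ j - 1), Nat.gcd y (4 ^ j - 1) ≤ 2 * 8 ^ j := by
  have h4 : 4 ≤ 4 ^ j := by
    calc 4 = 4 ^ 1 := by norm_num
      _ ≤ 4 ^ j := Nat.pow_le_pow_right (by norm_num) hj
  have h1 : 4 ^ j - 1 < 2 ^ j * 2 ^ j := by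
    rw [← mul_pow]; norm_num
  refine (sum_gcd_le _ (by omega)).trans ?_
  calc (4 ^ j - 1) * (Nat.divisors (4 ^ j - 1)).card ≤ 4 ^ j * (2 * 2 ^ j) :=
        Nat.mul_le_mul (by omega) (card_divisors_le h1)
    _ = 2 * 8 ^ j := by
        rw [show (8 : ℕ) = 4 * 2 by norm_num, mul_pow]; ring

end Pool.Agent.W373.CG
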