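import Pool.Agent.W373.CG.Pres
import Pool.Agent.W373.CG.Num

set_option autoImplicit false

/-!
# Conjugacy in the group
-/

namespace Pool.Agent.W373.CG

/-- standard element with integer coordinates -/
def rep (X Y k j : ℤ) : Γ := nf X Y k * gt ^ j

theorem ψ_rep (X Y k j : ℤ) : ψ (rep X Y k j) = ⟨X, Y, k, j⟩ := by
  unfold rep
  rw [map_mul, ψ_nf, map_zpow, ψ_t, M.t_zpow]
  ext <;> simp

theorem isConj_of {g g' : Γ} (h : Γ) (H : ψ h * ψ g * (ψ h)⁻¹ = ψ g') : IsConj g g' := by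
  rw [isConj_iff]
  refine ⟨h, ψ_injective ?_⟩
  rw [map_mul, map_mul, map_inv, H]

theorem isConj_clear {g : Γ} (u : ℕ) (X Y : ℤ) (hX : (4 : ℚ) ^ u * (ψ g).x = X)
    (hY : (4 : ℚ) ^ u * (ψ g).y = Y) : IsConj g (rep X Y (ψ g).k (ψ g).j) := by
  refine isConj_of (gt ^ (u : ℤ)) ?_
  rw [map_zpow, ψ_t, M.t_zpow, ψ_rep]
  ext
  · simp [← hX]
  · simp [← hY]
  · simp
  · simp

theorem isConj_c (X Y k j m : ℤ) : IsConj (rep X Y k j) (rep (X + m * Y) Y k j) := by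
  refine isConj_of (gc ^ m) ?_
  rw [map_zpow, ψ_c, M.c_zpow, ψ_rep, ψ_rep]
  ext <;> simp

theorem isConj_a (X Y k : ℤ) {j : ℤ} (hj : j ≠ 0) (q : ℤ) :
    IsConj (rep X Y k j) (rep (X + q * (4 ^ j.natAbs - 1)) Y k j) := by
  obtain ⟨n, rfl | rfl⟩ := j.eq_nat_or_neg
  · refine isConj_of (ga ^ (-q)) ?_
    rw [map_zpow, ψ_a, M.a_zpow, ψ_rep, ψ_rep]
    ext
    · simp; ring
    · simp
    · simp
    · simp
  · refine isConj_of (ga ^ (q * 4 ^ n)) ?_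
    rw [map_zpow, ψ_a, M.a_zpow, ψ_rep, ψ_rep]
    ext
    · simp
      have : (4 : ℚ) ^ n ≠ 0 := by positivity
      field_simp
      ring
    · simp
    · simp
    · simp

theorem isConj_b (X Y k : ℤ) {j : ℤ} (hj : j ≠ 0) (q : ℤ) :
    ∃ X' : ℤ, IsConj (rep X Y k j) (rep X' (Y + q * (4 ^ j.natAbs - 1)) k j) := by
  obtain ⟨n, rfl | rfl⟩ := j.eq_nat_or_neg
  · refine ⟨X + 4 ^ n * k * q, isConj_of (gb ^ (-q)) ?_⟩
    rw [map_zpow, ψ_b, M.b_zpow, ψ_rep, ψ_rep]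
    ext
    · simp; ring
    · simp; ring
    · simp
    · simp
  · refine ⟨X - k * q, isConj_of (gb ^ (q * 4 ^ n)) ?_⟩
    rw [map_zpow, ψ_b, M.b_zpow, ψ_rep, ψ_rep]
    have : (4 : ℚ) ^ n ≠ 0 := by positivity
    ext
    · simp
      field_simp
      ring
    · simp
      field_simp
      ring
    · simp
    · simp

theorem N_pos {j : ℤ} (hj : j ≠ 0) : 0 < 4 ^ j.natAbs - 1 := by
  have h0 : 1 ≤ j.natAbs := by omega
  have : 4 ^ 1 ≤ 4 ^ j.natAbs := Nat.pow_le_pow_right (by norm_num) h0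
  omega

theorem exists_rep (X Y k : ℤ) {j : ℤ} (hj : j ≠ 0) :
    ∃ y x : ℕ, y < 4 ^ j.natAbs - 1 ∧ x < Nat.gcd y (4 ^ j.natAbs - 1) ∧
      IsConj (rep X Y k j) (rep x y k j) := by
  set N : ℕ := 4 ^ j.natAbs - 1 with hN
  have hN0 : 0 < N := N_pos hj
  have hNz : (4 : ℤ) ^ j.natAbs - 1 = (N : ℤ) := by
    rw [hN, Nat.cast_sub (Nat.one_le_pow _ _ (by norm_num))]; push_cast; rfl
  obtain ⟨X', h1⟩ := isConj_b X Y k hj (-(Y / N))
  rw [hNz] at h1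
  have hy : Y + -(Y / N) * N = Y % N := by
    have := Int.emod_add_mul_ediv Y N
    linarith
  rw [hy] at h1
  have hy0 : 0 ≤ Y % N := Int.emod_nonneg _ (by exact_mod_cast hN0.ne')
  have hyN : Y % N < N := Int.emod_lt_of_pos _ (by exact_mod_cast hN0)
  obtain ⟨y, hyy⟩ := Int.eq_ofNat_of_zero_le hy0
  rw [hyy] at h1
  have hyN' : y < N := by rw [hyy] at hyN; exact_mod_cast hyN
  set d : ℕ := Nat.gcd y N with hd
  have hd0 : 0 < d := Nat.gcd_pos_of_pos_right _ hN0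
  have hbez : (d : ℤ) = y * Nat.gcdA y N + N * Nat.gcdB y N := Nat.gcd_eq_gcd_ab y N
  have h2 := isConj_c X' y k j (-(X' / d) * Nat.gcdA y N)
  have h3 := isConj_a (X' + -(X' / d) * Nat.gcdA y N * y) y k hj (-(X' / d) * Nat.gcdB y N)
  rw [hNz] at h3
  have hx : X' + -(X' / d) * Nat.gcdA y N * y + -(X' / d) * Nat.gcdB y N * N = X' % d := by
    have h4 := Int.emod_add_mul_ediv X' d
    have h5 : X' + -(X' / d) * Nat.gcdA y N * y + -(X' / d) * Nat.gcdB y N * N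
        = X' - (X' / d) * (y * Nat.gcdA y N + N * Nat.gcdB y N) := by ring
    rw [h5, ← hbez]
    linarith
  rw [hx] at h3
  have hx0 : 0 ≤ X' % d := Int.emod_nonneg _ (by exact_mod_cast hd0.ne')
  have hxd : X' % d < d := Int.emod_lt_of_pos _ (by exact_mod_cast hd0)
  obtain ⟨x, hxx⟩ := Int.eq_ofNat_of_zero_le hx0
  rw [hxx] at h3 hxd
  refine ⟨y, x, hyN', by exact_mod_cast hxd, ?_⟩
  exact h1.trans (h2.trans h3)

end Pool.Agent.W373.CG
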