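import Mathlib

set_option autoImplicit false

/-!
# A model of the ascending HNN extension of the Heisenberg group

`M` is the group of quadruples `(x, y, k, j)`, `x y : ℚ`, `k j : ℤ`, with multiplication
`(x,y,k,j) (x',y',k',j') = (x + 4^j (x' + k y'), y + 4^j y', k + k', j + j')`.
-/

namespace Pool.Agent.W373.CG

/-- quadruples -/
@[ext] structure M where
  x : ℚ
  y : ℚ
  k : ℤ
  j : ℤ

namespace M

theorem four_ne : (4 : ℚ) ≠ 0 := by norm_num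

instance : Mul M := ⟨fun g h => ⟨g.x + (4 : ℚ) ^ g.j * (h.x + g.k * h.y), g.y + (4 : ℚ) ^ g.j * h.y, g.k + h.k, g.j + h.j⟩⟩
instance : One M := ⟨⟨0, 0, 0, 0⟩⟩
instance : Inv M := ⟨fun g => ⟨(4 : ℚ) ^ (-g.j) * (-g.x + g.k * g.y), -((4 : ℚ) ^ (-g.j) * g.y), -g.k, -g.j⟩⟩

theorem mul_def (g h : M) : g * h = ⟨g.x + (4 : ℚ) ^ g.j * (h.x + g.k * h.y), g.y + (4 : ℚ) ^ g.j * h.y, g.k + h.k, g.j + h.j⟩ := rfl
theorem one_def : (1 : M) = ⟨0, 0, 0, 0⟩ := rfl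
theorem inv_def (g : M) : g⁻¹ = ⟨(4 : ℚ) ^ (-g.j) * (-g.x + g.k * g.y), -((4 : ℚ) ^ (-g.j) * g.y), -g.k, -g.j⟩ := rfl

instance : Group M := Group.ofLeftAxioms
  (by
    intro a b c
    simp only [mul_def, zpow_add₀ four_ne]
    ext <;> simp <;> ring)
  (by
    intro a
    simp only [mul_def, one_def]
    ext <;> simp)
  (by
    intro a
    simp only [mul_def, inv_def, one_def]
    ext <;> simp <;> ring)

@[simp] theorem mul_x (g h : M) : (g * h).x = g.x + (4 : ℚ) ^ g.j * (h.x + g.k * h.y) := rfl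
@[simp] theorem mul_y (g h : M) : (g * h).y = g.y + (4 : ℚ) ^ g.j * h.y := rfl
@[simp] theorem mul_k (g h : M) : (g * h).k = g.k + h.k := rfl
@[simp] theorem mul_j (g h : M) : (g * h).j = g.j + h.j := rfl
@[simp] theorem one_x : (1 : M).x = 0 := rfl
@[simp] theorem one_y : (1 : M).y = 0 := rfl
@[simp] theorem one_k : (1 : M).k = 0 := rfl
@[simp] theorem one_j : (1 : M).j = 0 := rfl
@[simp] theorem inv_x (g : M) : (g⁻¹).x = (4 : ℚ) ^ (-g.j) * (-g.x + g.k * g.y) := rfl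
@[simp] theorem inv_y (g : M) : (g⁻¹).y = -((4 : ℚ) ^ (-g.j) * g.y) := rfl
@[simp] theorem inv_k (g : M) : (g⁻¹).k = -g.k := rfl
@[simp] theorem inv_j (g : M) : (g⁻¹).j = -g.j := rfl

/-- the additive part -/
def A : Multiplicative (ℚ × ℚ) →* M where
  toFun p := ⟨p.toAdd.1, p.toAdd.2, 0, 0⟩
  map_one' := rfl
  map_mul' p q := by
    ext <;> simp

/-- the torus part -/
def T : Multiplicative (ℤ × ℤ) →* M where
  toFun p := ⟨0, 0, p.toAdd.1, p.toAdd.2⟩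
  map_one' := rfl
  map_mul' p q := by
    ext <;> simp

/-- the four generators -/
def a : M := ⟨1, 0, 0, 0⟩
def b : M := ⟨0, 1, 0, 0⟩
def c : M := ⟨0, 0, 1, 0⟩
def t : M := ⟨0, 0, 0, 1⟩

theorem a_zpow (n : ℤ) : a ^ n = ⟨n, 0, 0, 0⟩ := by
  have h := map_zpow A (Multiplicative.ofAdd ((1 : ℚ), (0 : ℚ))) n
  rw [← ofAdd_zsmul] at h
  simpa [A, a] using h.symm

theorem b_zpow (n : ℤ) : b ^ n = ⟨0, n, 0, 0⟩ := by
  have h := map_zpow A (Multiplicative.ofAdd ((0 : ℚ), (1 : ℚ))) n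
  rw [← ofAdd_zsmul] at h
  simpa [A, b] using h.symm

theorem c_zpow (n : ℤ) : c ^ n = ⟨0, 0, n, 0⟩ := by
  have h := map_zpow T (Multiplicative.ofAdd ((1 : ℤ), (0 : ℤ))) n
  rw [← ofAdd_zsmul] at h
  simpa [T, c] using h.symm

theorem t_zpow (n : ℤ) : t ^ n = ⟨0, 0, 0, n⟩ := by
  have h := map_zpow T (Multiplicative.ofAdd ((0 : ℤ), (1 : ℤ))) n
  rw [← ofAdd_zsmul] at h
  simpa [T, t] using h.symm

end M

end Pool.Agent.W373.CG
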