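import Pool.Agent.W373.CG.Mod

set_option autoImplicit false

/-!
# The finitely presented group and its normal form
-/

namespace Pool.Agent.W373.CG

/-- the letters -/
def la : FreeGroup (Fin 4) := FreeGroup.of 0
def lb : FreeGroup (Fin 4) := FreeGroup.of 1
def lc : FreeGroup (Fin 4) := FreeGroup.of 2
def lt : FreeGroup (Fin 4) := FreeGroup.of 3

/-- the six relators -/
def R : Set (FreeGroup (Fin 4)) :=
  {la * lb * la⁻¹ * lb⁻¹, la * lc * la⁻¹ * lc⁻¹, lc * lb * lc⁻¹ * lb⁻¹ * la⁻¹,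
    lt * la * lt⁻¹ * (la ^ 4)⁻¹, lt * lb * lt⁻¹ * (lb ^ 4)⁻¹, lt * lc * lt⁻¹ * lc⁻¹}

theorem R_finite : R.Finite := by
  unfold R
  exact Set.toFinite _

/-- the group -/
abbrev Γ := PresentedGroup R

/-- generators -/
def ga : Γ := PresentedGroup.of 0
def gb : Γ := PresentedGroup.of 1
def gc : Γ := PresentedGroup.of 2
def gt : Γ := PresentedGroup.of 3

theorem rel_of {x y : FreeGroup (Fin 4)} (h : x * y⁻¹ ∈ R) :
    PresentedGroup.mk R x = PresentedGroup.mk R y := PresentedGroup.mk_eq_mk_of_mul_inv_mem h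

theorem ab : ga * gb = gb * ga := by
  have h := rel_of (x := la * lb * la⁻¹) (y := lb) (by simp [R])
  simp only [map_mul, map_inv] at h
  exact mul_inv_eq_iff_eq_mul.1 h

theorem ac : ga * gc = gc * ga := by
  have h := rel_of (x := la * lc * la⁻¹) (y := lc) (by simp [R])
  simp only [map_mul, map_inv] at h
  exact mul_inv_eq_iff_eq_mul.1 h

theorem cb : gc * gb * gc⁻¹ = ga * gb := by
  have h := rel_of (x := lc * lb * lc⁻¹) (y := la * lb) (by simp [R, mul_assoc])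
  simp only [map_mul, map_inv] at h
  exact h

theorem ta : gt * ga * gt⁻¹ = ga ^ 4 := by
  have h := rel_of (x := lt * la * lt⁻¹) (y := la ^ 4) (by simp [R])
  simp only [map_mul, map_inv, map_pow] at h
  exact h

theorem tb : gt * gb * gt⁻¹ = gb ^ 4 := by
  have h := rel_of (x := lt * lb * lt⁻¹) (y := lb ^ 4) (by simp [R])
  simp only [map_mul, map_inv, map_pow] at h
  exact h

theorem tc : gt * gc = gc * gt := by
  have h := rel_of (x := lt * lc * lt⁻¹) (y := lc) (by simp [R])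
  simp only [map_mul, map_inv] at h
  exact mul_inv_eq_iff_eq_mul.1 h

/-- the homomorphism to the model -/
def f : Fin 4 → M := ![M.a, M.b, M.c, M.t]

theorem f_rel : ∀ r ∈ R, FreeGroup.lift f r = 1 := by
  intro r hr
  simp only [R, Set.mem_insert_iff, Set.mem_singleton_iff] at hr
  rcases hr with rfl | rfl | rfl | rfl | rfl | rfl <;>
    simp only [la, lb, lc, lt, map_mul, map_inv, map_pow, FreeGroup.lift_apply_of, f,
      Matrix.cons_val] <;>
    (try rw [← zpow_natCast, M.a_zpow]) <;> (try rw [← zpow_natCast, M.b_zpow]) <;>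
    ext <;> simp [M.a, M.b, M.c, M.t]

/-- the homomorphism to the model -/
def ψ : Γ →* M := PresentedGroup.toGroup f_rel

@[simp] theorem ψ_a : ψ ga = M.a := PresentedGroup.toGroup.of f_rel
@[simp] theorem ψ_b : ψ gb = M.b := PresentedGroup.toGroup.of f_rel
@[simp] theorem ψ_c : ψ gc = M.c := PresentedGroup.toGroup.of f_rel
@[simp] theorem ψ_t : ψ gt = M.t := PresentedGroup.toGroup.of f_rel

/-- the normal form -/
def nf (X Y K : ℤ) : Γ := ga ^ X * gb ^ Y * gc ^ K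

theorem comm_ab : Commute ga gb := ab
theorem comm_ac : Commute ga gc := ac
theorem comm_tc : Commute gt gc := tc

theorem cnb (n : ℕ) : gc ^ n * gb = ga ^ n * gb * gc ^ n := by
  induction n with
  | zero => simp
  | succ n ih =>
    have h1 : gc * gb = ga * gb * gc := mul_inv_eq_iff_eq_mul.1 cb
    calc gc ^ (n + 1) * gb = gc ^ n * (gc * gb) := by rw [pow_succ]; group
      _ = gc ^ n * (ga * (gb * gc)) := by rw [h1]; group
      _ = ga * (gc ^ n * gb) * gc := by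
          have h2 : gc ^ n * ga = ga * gc ^ n := ((comm_ac.pow_right n).eq).symm
          rw [← mul_assoc, h2]; group
      _ = ga ^ (n + 1) * gb * gc ^ (n + 1) := by rw [ih, pow_succ' ga, pow_succ gc]; group

theorem czb (n : ℤ) : gc ^ n * gb * gc ^ (-n) = ga ^ n * gb := by
  obtain ⟨m, rfl | rfl⟩ := n.eq_nat_or_neg
  · rw [zpow_natCast, zpow_natCast, cnb, zpow_neg, zpow_natCast]; group
  · have h := cnb m
    have h2 : gc ^ m * ga ^ m = ga ^ m * gc ^ m := ((comm_ac.pow_pow m m).eq).symm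
    have h3 : gb = gc ^ m * (ga ^ (-(m : ℤ)) * gb) * gc ^ (-(m : ℤ)) := by
      have h4 : gc ^ m * ga ^ (-(m : ℤ)) = ga ^ (-(m : ℤ)) * gc ^ m :=
        (((comm_ac.symm.pow_left m).zpow_right (-(m : ℤ))).eq)
      rw [← mul_assoc, h4, mul_assoc (ga ^ (-(m : ℤ))), h]
      simp only [zpow_neg, zpow_natCast]
      group
    rw [neg_neg, zpow_natCast]
    calc gc ^ (-(m : ℤ)) * gb * gc ^ m
        = gc ^ (-(m : ℤ)) * (gc ^ m * (ga ^ (-(m : ℤ)) * gb) * gc ^ (-(m : ℤ))) * gc ^ m := by rw [← h3]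
      _ = ga ^ (-(m : ℤ)) * gb := by simp only [zpow_neg, zpow_natCast]; group

theorem czbz (n m : ℤ) : gc ^ n * gb ^ m = ga ^ (n * m) * gb ^ m * gc ^ n := by
  have h : gc ^ n * gb ^ m * (gc ^ n)⁻¹ = (gc ^ n * gb * (gc ^ n)⁻¹) ^ m := (conj_zpow).symm
  rw [← zpow_neg, czb, (comm_ab.zpow_left n).mul_zpow, ← zpow_mul, zpow_neg,
    mul_inv_eq_iff_eq_mul] at h
  exact h

theorem tna (n : ℕ) (m : ℤ) : gt ^ n * ga ^ m = ga ^ (4 ^ n * m) * gt ^ n := by
  induction n generalizing m with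
  | zero => simp
  | succ n ih =>
    have h : gt * ga ^ m * gt⁻¹ = (gt * ga * gt⁻¹) ^ m := conj_zpow.symm
    rw [ta, mul_inv_eq_iff_eq_mul] at h
    rw [pow_succ gt n, mul_assoc, h, ← mul_assoc, ← zpow_natCast ga 4, ← zpow_mul, ih, pow_succ (4 : ℤ) n]
    push_cast
    rw [mul_assoc, mul_assoc]

theorem tnb (n : ℕ) (m : ℤ) : gt ^ n * gb ^ m = gb ^ (4 ^ n * m) * gt ^ n := by
  induction n generalizing m with
  | zero => simp
  | succ n ih =>
    have h : gt * gb ^ m * gt⁻¹ = (gt * gb * gt⁻¹) ^ m := conj_zpow.symm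
    rw [tb, mul_inv_eq_iff_eq_mul] at h
    rw [pow_succ gt n, mul_assoc, h, ← mul_assoc, ← zpow_natCast gb 4, ← zpow_mul, ih, pow_succ (4 : ℤ) n]
    push_cast
    rw [mul_assoc, mul_assoc]

theorem nf_a (X Y K m : ℤ) : nf X Y K * ga ^ m = nf (X + m) Y K := by
  unfold nf
  rw [mul_assoc, ((comm_ac.zpow_zpow m K).eq).symm, ← mul_assoc, mul_assoc (ga ^ X),
    ((comm_ab.zpow_zpow m Y).eq).symm, ← mul_assoc, ← zpow_add]

theorem nf_b (X Y K m : ℤ) : nf X Y K * gb ^ m = nf (X + K * m) (Y + m) K := by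
  unfold nf
  have h1 : gb ^ Y * ga ^ (K * m) = ga ^ (K * m) * gb ^ Y := ((comm_ab.zpow_zpow _ Y).eq).symm
  calc ga ^ X * gb ^ Y * gc ^ K * gb ^ m = ga ^ X * gb ^ Y * (gc ^ K * gb ^ m) := by rw [mul_assoc]
    _ = ga ^ X * (gb ^ Y * ga ^ (K * m)) * gb ^ m * gc ^ K := by rw [czbz]; group
    _ = _ := by rw [h1, zpow_add ga, zpow_add gb]; group

theorem nf_c (X Y K m : ℤ) : nf X Y K * gc ^ m = nf X Y (K + m) := by
  unfold nf
  rw [mul_assoc, ← zpow_add]

theorem t_nf (X Y K : ℤ) : gt * nf X Y K = nf (4 * X) (4 * Y) K * gt := by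
  have h1 := tna 1 X
  have h2 := tnb 1 Y
  have h3 : gt * gc ^ K = gc ^ K * gt := (comm_tc.zpow_right K).eq
  rw [pow_one, pow_one] at h1 h2
  unfold nf
  rw [← mul_assoc, ← mul_assoc, h1, mul_assoc (ga ^ (4 * X)), h2, mul_assoc (ga ^ (4 * X)),
    mul_assoc (gb ^ (4 * Y)), h3]
  group

/-- every element has the normal form -/
def HasNF (g : Γ) : Prop := ∃ (u w : ℕ) (X Y K : ℤ), g = (gt ^ u)⁻¹ * nf X Y K * gt ^ w

theorem hasNF_one : HasNF 1 := ⟨0, 0, 0, 0, 0, by simp [nf]⟩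

theorem hasNF_a {g : Γ} (h : HasNF g) (m : ℤ) : HasNF (g * ga ^ m) := by
  obtain ⟨u, w, X, Y, K, rfl⟩ := h
  refine ⟨u, w, X + 4 ^ w * m, Y, K, ?_⟩
  rw [mul_assoc, tna, ← mul_assoc, mul_assoc _ _ (ga ^ _), nf_a]

theorem hasNF_b {g : Γ} (h : HasNF g) (m : ℤ) : HasNF (g * gb ^ m) := by
  obtain ⟨u, w, X, Y, K, rfl⟩ := h
  refine ⟨u, w, X + K * (4 ^ w * m), Y + 4 ^ w * m, K, ?_⟩
  rw [mul_assoc, tnb, ← mul_assoc, mul_assoc _ _ (gb ^ _), nf_b]

theorem hasNF_c {g : Γ} (h : HasNF g) (m : ℤ) : HasNF (g * gc ^ m) := by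
  obtain ⟨u, w, X, Y, K, rfl⟩ := h
  refine ⟨u, w, X, Y, K + m, ?_⟩
  have h3 : gt ^ w * gc ^ m = gc ^ m * gt ^ w := ((comm_tc.pow_left w).zpow_right m).eq
  rw [mul_assoc, h3, ← mul_assoc, mul_assoc _ _ (gc ^ _), nf_c]

theorem hasNF_t {g : Γ} (h : HasNF g) : HasNF (g * gt) := by
  obtain ⟨u, w, X, Y, K, rfl⟩ := h
  exact ⟨u, w + 1, X, Y, K, by simp only [pow_succ, mul_assoc]⟩

theorem hasNF_t' {g : Γ} (h : HasNF g) : HasNF (g * gt⁻¹) := by
  obtain ⟨u, w, X, Y, K, rfl⟩ := h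
  rcases w with _ | w
  · refine ⟨u + 1, 0, 4 * X, 4 * Y, K, ?_⟩
    have h := t_nf X Y K
    have h2 : nf (4 * X) (4 * Y) K = gt * nf X Y K * gt⁻¹ := by rw [h]; group
    rw [h2, pow_succ']
    group
  · refine ⟨u, w, X, Y, K, ?_⟩
    rw [pow_succ]; group

theorem hasNF (g : Γ) : HasNF g := by
  have hg : g ∈ Subgroup.closure (Set.range (PresentedGroup.of : Fin 4 → Γ)) := by
    rw [PresentedGroup.closure_range_of]; trivial
  induction hg using Subgroup.closure_induction_right with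
  | one => exact hasNF_one
  | mul_right x hx y hy ih =>
    obtain ⟨i, rfl⟩ := hy
    fin_cases i
    · have := hasNF_a ih 1; rwa [zpow_one] at this
    · have := hasNF_b ih 1; rwa [zpow_one] at this
    · have := hasNF_c ih 1; rwa [zpow_one] at this
    · exact hasNF_t ih
  | mul_inv_cancel x hx y hy ih =>
    obtain ⟨i, rfl⟩ := hy
    fin_cases i
    · have := hasNF_a ih (-1); rwa [zpow_neg, zpow_one] at this
    · have := hasNF_b ih (-1); rwa [zpow_neg, zpow_one] at this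
    · have := hasNF_c ih (-1); rwa [zpow_neg, zpow_one] at this
    · exact hasNF_t' ih

theorem ψ_nf (X Y K : ℤ) : ψ (nf X Y K) = ⟨X, Y, K, 0⟩ := by
  unfold nf
  rw [map_mul, map_mul, map_zpow, map_zpow, map_zpow, ψ_a, ψ_b, ψ_c, M.a_zpow, M.b_zpow, M.c_zpow]
  ext <;> simp

theorem ψ_injective : Function.Injective ψ := by
  rw [injective_iff_map_eq_one]
  intro g hg
  obtain ⟨u, w, X, Y, K, rfl⟩ := hasNF g
  rw [map_mul, map_mul, map_inv, map_pow, map_pow, ψ_t, ψ_nf, ← zpow_natCast, ← zpow_natCast,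
    ← zpow_neg, M.t_zpow, M.t_zpow] at hg
  have hx := congrArg M.x hg
  have hy := congrArg M.y hg
  have hk := congrArg M.k hg
  have hj := congrArg M.j hg
  simp at hx hy hk hj
  have hX : X = 0 := by simpa using hx
  have hY : Y = 0 := by simpa using hy
  have hw : w = u := by omega
  subst hX hY hk hw
  simp [nf]

end Pool.Agent.W373.CG
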