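import Pool.Agent.W373.CG.Ball

set_option autoImplicit false

/-!
# Upper bound for the number of conjugacy classes
-/

namespace Pool.Agent.W373.CG

open scoped Pointwise Classical
open Finset

/-- pairs for the coset with `|j| = m` -/
def F1 (m : ℕ) : Finset (Σ _ : ℕ, ℕ) :=
  (range (4 ^ m - 1)).sigma (fun y => range (Nat.gcd y (4 ^ m - 1)))

theorem card_F1 (m : ℕ) : (F1 m).card ≤ 2 * 8 ^ m := by
  rcases Nat.eq_zero_or_pos m with rfl | h
  · simp [F1]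
  · unfold F1
    rw [card_sigma]
    simp only [card_range]
    exact sum_gcd_four m h

/-- all class representatives with `j ≠ 0` -/
noncomputable def C1 (n : ℕ) : Finset (ConjClasses Γ) :=
  (Icc (-(n : ℤ)) n ×ˢ Icc (-(n : ℤ)) n).biUnion (fun p =>
    (F1 p.1.natAbs).image (fun q => ConjClasses.mk (rep q.2 q.1 p.2 p.1)))

/-- class representatives with `j = 0` -/
noncomputable def C0 (n : ℕ) : Finset (ConjClasses Γ) :=
  ((Icc (-(3 * n * (n + 1) * 2 ^ n : ℤ)) (3 * n * (n + 1) * 2 ^ n) ×ˢ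
    Icc (-(3 * n * (n + 1) * 2 ^ n : ℤ)) (3 * n * (n + 1) * 2 ^ n)) ×ˢ Icc (-(n : ℤ)) n).image
      (fun p => ConjClasses.mk (rep p.1.1 p.1.2 p.2 0))

theorem card_Icc_symm (n : ℕ) : (Icc (-(n : ℤ)) n).card = 2 * n + 1 := by
  rw [Int.card_Icc]; omega

theorem card_C1 (n : ℕ) : (C1 n).card ≤ (2 * n + 1) * (2 * n + 1) * (2 * 8 ^ n) := by
  unfold C1
  refine card_biUnion_le.trans ?_
  calc _ ≤ ∑ p ∈ (Icc (-(n : ℤ)) n ×ˢ Icc (-(n : ℤ)) n), 2 * 8 ^ n := by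
        apply sum_le_sum
        intro p hp
        rw [mem_product, mem_Icc] at hp
        refine card_image_le.trans ((card_F1 _).trans ?_)
        have : p.1.natAbs ≤ n := by omega
        exact Nat.mul_le_mul_left 2 (Nat.pow_le_pow_right (by norm_num) this)
    _ = _ := by rw [sum_const, card_product, card_Icc_symm, smul_eq_mul]

theorem card_C0 (n : ℕ) : (C0 n).card ≤
    (2 * (3 * n * (n + 1) * 2 ^ n) + 1) * (2 * (3 * n * (n + 1) * 2 ^ n) + 1) * (2 * n + 1) := by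
  unfold C0
  refine card_image_le.trans ?_
  rw [card_product, card_product, card_Icc_symm]
  have h := card_Icc_symm (3 * n * (n + 1) * 2 ^ n)
  push_cast at h
  rw [h]

theorem mem_classes {n : ℕ} {g : Γ} (hg : g ∈ B n) : ConjClasses.mk g ∈ C1 n ∪ C0 n := by
  classical
  obtain ⟨u, v, h1, h2, h3, h4, h5, h6, h7, h8, h9⟩ := Q_of_mem hg
  obtain ⟨X, hX⟩ := h1
  obtain ⟨Y, hY⟩ := h2
  have hX' : (4 : ℚ) ^ u * (ψ g).x = X := hX.symm
  have hY' : (4 : ℚ) ^ u * (ψ g).y = Y := hY.symm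
  have hc := isConj_clear u X Y hX' hY'
  rw [mem_union]
  by_cases hj : (ψ g).j = 0
  · right
    rw [hj] at h7 hc
    simp only [abs_zero, add_zero] at h7
    have huv : 2 * u + 2 * v ≤ n := by exact_mod_cast h7
    have h4 : (4 : ℚ) ^ u * 4 ^ v ≤ 2 ^ n := by
      rw [← pow_add]
      calc (4 : ℚ) ^ (u + v) = 2 ^ (2 * (u + v)) := by rw [pow_mul]; norm_num
        _ ≤ 2 ^ n := pow_le_pow_right₀ (by norm_num) (by omega)
    have hn0 : (0 : ℚ) ≤ n := Nat.cast_nonneg n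
    have hu0 : (0 : ℚ) < 4 ^ u := by positivity
    have hXb : |(X : ℚ)| ≤ 3 * n * (n + 1) * 2 ^ n := by
      rw [← hX', abs_mul, abs_of_pos hu0]
      calc (4 : ℚ) ^ u * |(ψ g).x| ≤ 4 ^ u * (3 * n * (n + 1) * 4 ^ v) := mul_le_mul_of_nonneg_left h8 hu0.le
        _ = 3 * n * (n + 1) * (4 ^ u * 4 ^ v) := by ring
        _ ≤ _ := mul_le_mul_of_nonneg_left h4 (by positivity)
    have hYb : |(Y : ℚ)| ≤ 3 * n * (n + 1) * 2 ^ n := by
      rw [← hY', abs_mul, abs_of_pos hu0]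
      calc (4 : ℚ) ^ u * |(ψ g).y| ≤ 4 ^ u * (3 * n * 4 ^ v) := mul_le_mul_of_nonneg_left h9 hu0.le
        _ = 3 * n * (4 ^ u * 4 ^ v) := by ring
        _ ≤ 3 * n * (2 ^ n) := mul_le_mul_of_nonneg_left h4 (by positivity)
        _ ≤ _ := by
          have h10 : (0 : ℚ) ≤ 2 ^ n := by positivity
          apply mul_le_mul_of_nonneg_right _ h10
          nlinarith
    have hXb' : |X| ≤ 3 * n * (n + 1) * 2 ^ n := by exact_mod_cast hXb
    have hYb' : |Y| ≤ 3 * n * (n + 1) * 2 ^ n := by exact_mod_cast hYb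
    rw [abs_le] at hXb' hYb' h3
    rw [ConjClasses.mk_eq_mk_iff_isConj.2 hc]
    unfold C0
    refine mem_image.2 ⟨((X, Y), (ψ g).k), ?_, rfl⟩
    simp only [mem_product, mem_Icc]
    exact ⟨⟨hXb', hYb'⟩, h3⟩
  · left
    obtain ⟨y, x, hy, hx, hc2⟩ := exists_rep X Y (ψ g).k hj
    rw [ConjClasses.mk_eq_mk_iff_isConj.2 (hc.trans hc2)]
    unfold C1
    rw [abs_le] at h3 h4
    refine mem_biUnion.2 ⟨((ψ g).j, (ψ g).k), ?_, mem_image.2 ⟨⟨y, x⟩, ?_, rfl⟩⟩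
    · simp only [mem_product, mem_Icc]
      exact ⟨h4, h3⟩
    · simp only [F1, mem_sigma, mem_range]
      exact ⟨hy, hx⟩

theorem card_classes (n : ℕ) :
    ((ConjClasses.mk '' (B n)).ncard : ℝ) ≤ 200 * ((n : ℝ) + 1) ^ 5 * 8 ^ n := by
  classical
  have h1 : (ConjClasses.mk '' (B n)).ncard ≤ (C1 n ∪ C0 n).card := by
    rw [← Set.ncard_coe_finset]
    apply Set.ncard_le_ncard _ (Finset.finite_toSet _)
    rintro _ ⟨g, hg, rfl⟩
    exact mem_classes hg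
  have h2 : (C1 n ∪ C0 n).card ≤ (2 * n + 1) * (2 * n + 1) * (2 * 8 ^ n) +
      (2 * (3 * n * (n + 1) * 2 ^ n) + 1) * (2 * (3 * n * (n + 1) * 2 ^ n) + 1) * (2 * n + 1) :=
    (card_union_le _ _).trans (Nat.add_le_add (card_C1 n) (card_C0 n))
  have h3 : ((ConjClasses.mk '' (B n)).ncard : ℝ) ≤ (2 * n + 1) * (2 * n + 1) * (2 * 8 ^ n) +
      (2 * (3 * n * (n + 1) * 2 ^ n) + 1) * (2 * (3 * n * (n + 1) * 2 ^ n) + 1) * (2 * n + 1) := by
    exact_mod_cast h1.trans h2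
  refine h3.trans ?_
  have hn : (0 : ℝ) ≤ n := Nat.cast_nonneg n
  set m : ℝ := (n : ℝ) + 1 with hm
  have hm1 : 1 ≤ m := by linarith
  have e1 : (2 * (n : ℝ) + 1) ≤ 2 * m := by linarith
  have h2n : (1 : ℝ) ≤ 2 ^ n := one_le_pow₀ (by norm_num)
  have e2 : (2 * (3 * n * (n + 1) * 2 ^ n) + 1 : ℝ) ≤ 7 * m ^ 2 * 2 ^ n := by
    have : (1 : ℝ) ≤ m ^ 2 * 2 ^ n := by
      have := one_le_pow₀ hm1 (n := 2)
      nlinarith
    have h5 : (n : ℝ) * (n + 1) ≤ m ^ 2 := by rw [hm]; nlinarith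
    have h6 : (n : ℝ) * (n + 1) * 2 ^ n ≤ m ^ 2 * 2 ^ n := mul_le_mul_of_nonneg_right h5 (by positivity)
    nlinarith
  have e3 : (2 : ℝ) ^ n * 2 ^ n ≤ 8 ^ n := by
    rw [← mul_pow]; exact pow_le_pow_left₀ (by norm_num) (by norm_num) n
  have h8 : (0 : ℝ) ≤ 8 ^ n := by positivity
  have t1 : (2 * (n : ℝ) + 1) * (2 * n + 1) * (2 * 8 ^ n) ≤ 8 * m ^ 5 * 8 ^ n := by
    have : (2 * (n : ℝ) + 1) * (2 * n + 1) ≤ 4 * m ^ 2 := by nlinarith
    have h25 : m ^ 2 ≤ m ^ 5 := pow_le_pow_right₀ hm1 (by norm_num)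
    nlinarith
  have t2 : (2 * (3 * n * (n + 1) * 2 ^ n) + 1 : ℝ) * (2 * (3 * n * (n + 1) * 2 ^ n) + 1) * (2 * n + 1)
      ≤ 98 * m ^ 5 * 8 ^ n := by
    calc (2 * (3 * n * (n + 1) * 2 ^ n) + 1 : ℝ) * (2 * (3 * n * (n + 1) * 2 ^ n) + 1) * (2 * n + 1)
        ≤ (7 * m ^ 2 * 2 ^ n) * (7 * m ^ 2 * 2 ^ n) * (2 * m) := by
          apply mul_le_mul _ e1 (by positivity) (by positivity)
          apply mul_le_mul e2 e2 (by positivity) (by positivity)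
      _ = 98 * m ^ 5 * (2 ^ n * 2 ^ n) := by ring
      _ ≤ 98 * m ^ 5 * 8 ^ n := mul_le_mul_of_nonneg_left e3 (by positivity)
  have hpos : 0 ≤ m ^ 5 * 8 ^ n := by positivity
  nlinarith

end Pool.Agent.W373.CG
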